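import Pool.Agent.Y489.SP.Stm
import Pool.Agent.Y356.HS.Area

/-!
# Project SP (helper489): the local degree is an integer
-/

set_option autoImplicit false

open MeasureTheory Set Metric Filter Topology
open scoped ENNReal NNReal

noncomputable section

namespace Pool.Agent.Y147.SP

open Pool.Agent.Y485.HS Pool.Agent.Y489.SP

/-- a function with all small translates equal to it on a ball is constant on a smaller ball -/
theorem const_of_trans {n : ℕ} (D : E n → ℝ) (hD : AEStronglyMeasurable D volume) (y : E n)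
    (δ : ℝ) (hδ : 0 < δ)
    (h : ∀ a : E n, ‖a‖ ≤ δ → ∀ᵐ w, w ∈ ball y δ → D (w - a) = D w) :
    ∃ w0 : E n, ∀ᵐ w, w ∈ ball y (δ / 2) → D w = D w0 := by
  set D' : E n → ℝ := hD.mk D with hD'
  have hm : Measurable D' := hD.stronglyMeasurable_mk.measurable
  have he : D =ᵐ[volume] D' := hD.ae_eq_mk
  have h1 : ∀ a : E n, ∀ᵐ w, (‖a‖ ≤ δ → w ∈ ball y δ → D' (w - a) = D' w) := by
    intro a
    by_cases ha : ‖a‖ ≤ δ
    · have h2 : ∀ᵐ w, D (w - a) = D' (w - a) :=
        (measurePreserving_sub_right (volume : Measure (E n)) a).quasiMeasurePreserving.ae he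
      filter_upwards [h a ha, h2, he] with w hw h3 h4 _ hwb
      rw [← h3, ← h4]
      exact hw hwb
    · exact Eventually.of_forall fun w hc => absurd hc ha
  have hms : MeasurableSet {x : E n × E n | ‖x.1‖ ≤ δ → x.2 ∈ ball y δ → D' (x.2 - x.1) = D' x.2} := by
    have e1 : MeasurableSet {x : E n × E n | ‖x.1‖ ≤ δ} :=
      measurableSet_le measurable_fst.norm measurable_const
    have e2 : MeasurableSet {x : E n × E n | x.2 ∈ ball y δ} :=
      measurable_snd measurableSet_ball
    have e3 : MeasurableSet {x : E n × E n | D' (x.2 - x.1) = D' x.2} :=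
      measurableSet_eq_fun (hm.comp (measurable_snd.sub measurable_fst)) (hm.comp measurable_snd)
    exact e1.imp (e2.imp e3)
  have h2 := (Measure.ae_ae_comm (μ := (volume : Measure (E n))) (ν := (volume : Measure (E n)))
    (p := fun a w => ‖a‖ ≤ δ → w ∈ ball y δ → D' (w - a) = D' w) hms).1 (Eventually.of_forall h1)
  have hpos : 0 < (volume : Measure (E n)) (ball y (δ / 2)) := measure_ball_pos _ _ (by positivity)
  have hex : ∃ w0 ∈ ball y (δ / 2), (∀ᵐ a : E n, ‖a‖ ≤ δ → w0 ∈ ball y δ → D' (w0 - a) = D' w0) ∧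
      D w0 = D' w0 := by
    by_contra hc
    push Not at hc
    have h3 : ∀ᵐ w : E n, w ∉ ball y (δ / 2) := by
      filter_upwards [h2, he] with w hw1 hw2 hwb
      exact hc w hwb hw1 hw2
    have h4 : (volume : Measure (E n)) (ball y (δ / 2)) = 0 := by
      have h5 := ae_iff.1 h3
      simp only [not_not, Set.ofPred_mem_eq] at h5
      exact h5
    exact hpos.ne' h4
  obtain ⟨w0, hw0, h3, h4⟩ := hex
  refine ⟨w0, ?_⟩
  have h5 := (Measure.measurePreserving_sub_left (volume : Measure (E n)) w0).quasiMeasurePreserving.ae h3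
  have hw0' : w0 ∈ ball y δ := ball_subset_ball (by linarith) hw0
  filter_upwards [h5, he] with w hw1 hw2 hwb
  have h6 : ‖w0 - w‖ ≤ δ := by
    rw [← dist_eq_norm]
    have h7 := dist_triangle_right w0 w y
    rw [mem_ball] at hw0 hwb
    linarith
  have h8 := hw1 h6 hw0'
  rw [sub_sub_cancel] at h8
  rw [hw2, h8, h4]

theorem t_INT : S_HOMT → S_INT := by
  intro hom n F0 R hF hR U V η δ y hU hV hη hδ hUV hd
  have hUV' : U ⊆ V := (self_subset_thickening hη U).trans hUV
  have hUb : Bornology.IsBounded U := hV.subset hUV'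
  have hcd : Continuous (fun x => (fderiv ℝ F0 x).det) :=
    ContinuousLinearMap.continuous_det.comp (hF.continuous_fderiv (by norm_num))
  have hio : IntegrableOn (fun x => (fderiv ℝ F0 x).det) U volume :=
    (hcd.continuousOn.integrableOn_compact hUb.isCompact_closure).mono_set subset_closure
  obtain ⟨d, hd1, hd2, -⟩ := Pool.Agent.Y356.HS.area n F0 (fderiv ℝ F0) (fun _ => U)
    (fun _ => hU.measurableSet) (fun _ _ _ => le_rfl)
    (hF.continuous_fderiv (by norm_num)).measurable
    (fun _ x _ => ((hF.differentiable (by norm_num)) x).hasFDerivAt.hasFDerivWithinAt)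
    (by rw [iUnion_const]; exact hio.hasFiniteIntegral)
  rw [iUnion_const] at hd2
  have hcs : ∀ (r : ℝ) (φ : E n → ℝ), (∀ w, r ≤ dist w y → φ w = 0) → HasCompactSupport φ := by
    intro r φ hφ
    refine HasCompactSupport.intro (isCompact_closedBall y r) fun w hw => hφ w ?_
    rw [mem_closedBall, not_le] at hw
    exact hw.le
  have htr : ∀ a : E n, ‖a‖ ≤ δ → ∀ φ : E n → ℝ, Continuous φ → (∀ w, δ ≤ dist w y → φ w = 0) →
      ∫ w, φ w * (d (w - a) : ℝ) = ∫ w, φ w * (d w : ℝ) := by
    intro a ha φ hφ hφ0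
    have h1 := hom n F0 (fun x => F0 x + a) R hF (hF.add contDiff_const) hR U V η δ y hU hV hη hδ
      hUV (by
        intro x hx t ht
        have h2 := hd x hx
        have h3 : F0 x + t • (F0 x + a - F0 x) = F0 x + t • a := by
          rw [add_sub_cancel_left]
        rw [h3]
        have h4 := dist_triangle_left (F0 x) y (F0 x + t • a)
        have h5 : dist (F0 x + t • a) (F0 x) = ‖t • a‖ := by
          rw [dist_eq_norm, add_sub_cancel_left]
        have h6 : ‖t • a‖ ≤ δ := by
          rw [norm_smul, Real.norm_eq_abs, abs_of_nonneg ht.1]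
          have := mul_le_mul ht.2 ha (norm_nonneg a) (by norm_num : (0 : ℝ) ≤ 1)
          linarith
        linarith) φ hφ hφ0
    have h2 : ∀ x, fderiv ℝ (fun x => F0 x + a) x = fderiv ℝ F0 x := fun x => by
      rw [fderiv_add_const]
    simp only [h2] at h1
    have h3 := hd2 φ hφ (hcs δ φ hφ0)
    have h4 := hd2 (fun w => φ (w + a)) (hφ.comp (continuous_id.add continuous_const))
      (hcs (δ + ‖a‖) _ (fun w hw => hφ0 _ (by
        have h5 := dist_triangle_left w y (w + a)
        have h6 : dist (w + a) w = ‖a‖ := by rw [dist_eq_norm, add_sub_cancel_left]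
        linarith)))
    have h5 : ∫ w, φ w * (d (w - a) : ℝ) = ∫ w, φ (w + a) * (d w : ℝ) := by
      rw [← integral_sub_right_eq_self (fun w => φ (w + a) * (d w : ℝ)) a]
      simp only [sub_add_cancel]
    rw [h5, ← h4, h1, h3]
  have hinv : ∀ a : E n, ‖a‖ ≤ δ → ∀ᵐ w, w ∈ ball y δ → (d (w - a) : ℝ) = (d w : ℝ) := by
    intro a ha
    have hi : Integrable (fun w => (d (w - a) : ℝ)) :=
      hd1.comp_sub_right a
    have h1 := isOpen_ball.ae_eq_zero_of_integral_contDiff_smul_eq_zero (U := ball y δ)
      (f := fun w => (d (w - a) : ℝ) - (d w : ℝ)) (μ := (volume : Measure (E n)))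
      ((hi.sub hd1).locallyIntegrable.locallyIntegrableOn _) (by
        intro g hg hgc hgs
        have hg0 : ∀ w, δ ≤ dist w y → g w = 0 := by
          intro w hw
          by_contra hne
          have := hgs (subset_tsupport g hne)
          rw [mem_ball] at this
          linarith
        have h2 := htr a ha g hg.continuous hg0
        obtain ⟨C, hC⟩ := hgc.exists_bound_of_continuous hg.continuous
        have i1 : Integrable (fun w => g w * (d (w - a) : ℝ)) :=
          hi.bdd_mul hg.continuous.aestronglyMeasurable (Eventually.of_forall hC)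
        have i2 : Integrable (fun w => g w * (d w : ℝ)) :=
          hd1.bdd_mul hg.continuous.aestronglyMeasurable (Eventually.of_forall hC)
        have h3 : ∫ w, g w • ((d (w - a) : ℝ) - (d w : ℝ)) =
            ∫ w, (g w * (d (w - a) : ℝ) - g w * (d w : ℝ)) := by
          congr 1
          funext w
          rw [smul_eq_mul, mul_sub]
        rw [h3, integral_sub i1 i2, h2, sub_self])
    filter_upwards [h1] with w hw hwb
    exact sub_eq_zero.1 (hw hwb)
  obtain ⟨w0, hw0⟩ := const_of_trans (fun w => (d w : ℝ)) hd1.aestronglyMeasurable y δ hδ hinv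
  refine ⟨d w0, fun φ hφ hφ0 => ?_⟩
  rw [hd2 φ hφ (hcs _ φ hφ0), ← integral_const_mul]
  refine integral_congr_ae ?_
  filter_upwards [hw0] with w hw
  by_cases hwb : w ∈ ball y (δ / 2)
  · rw [hw hwb, mul_comm]
  · rw [mem_ball, not_lt] at hwb
    rw [hφ0 w hwb, zero_mul, mul_zero]

end Pool.Agent.Y147.SP
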